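import Mathlib
import Pool.Agent.Lib.MP_a13529_nt.Def
import Pool.Agent.Lib.MP_a13529_nt.Main

set_option autoImplicit false

namespace Pool.Agent.Results.MP_a13529_nt.Structure

open Pool.Agent.Lib.MP_a13529_nt

/-- A super-imperfect number is one of the six known ones or has the form `2 ^ a * v ^ 2` with
`a ≥ 2`, `v > 1` and `v` coprime to `6`. -/
theorem result (n : ℕ) (hn : 0 < n) (h : 2 * beta (beta n) = n) :
    n ∈ ({2, 4, 8, 128, 32768, 2 ^ 31} : Set ℕ) ∨
      ∃ a v : ℕ, 2 ≤ a ∧ 1 < v ∧ Nat.Coprime v 6 ∧ n = 2 ^ a * v ^ 2 :=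
  main n hn h

end Pool.Agent.Results.MP_a13529_nt.Structure
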